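import Pool.Agent.Helper36_X1.Stmts3

/-!
# BAS: first properties of the groups `D`
-/

set_option autoImplicit false

open scoped BigOperators

noncomputable section

namespace Pool.Agent.PP.X1.H53

open Pool.Agent.PP.X1

variable {D : Type} [Group D] {M : Subgroup D}

lemma mem_up {A : Subgroup M} {x : M} : (x : D) ∈ up A ↔ x ∈ A := by
  unfold up
  rw [Subgroup.mem_map]
  constructor
  · rintro ⟨y, hy, h⟩
    have : y = x := Subtype.ext h
    exact this ▸ hy
  · intro h
    exact ⟨x, h, rfl⟩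

lemma mem_up' {A : Subgroup M} {x : D} : x ∈ up A ↔ ∃ h : x ∈ M, (⟨x, h⟩ : M) ∈ A := by
  constructor
  · intro h
    have h' := h
    unfold up at h'
    rw [Subgroup.mem_map] at h'
    obtain ⟨y, hy, hyx⟩ := h'
    have hx : x ∈ M := hyx ▸ y.2
    refine ⟨hx, ?_⟩
    have : y = ⟨x, hx⟩ := Subtype.ext hyx
    exact this ▸ hy
  · rintro ⟨h, hA⟩
    exact mem_up.2 hA

lemma up_le (A : Subgroup M) : up A ≤ M := by
  intro x hx
  obtain ⟨h, -⟩ := mem_up'.1 hx
  exact h

/-- elements of prime power order are in a normal subgroup of prime index -/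
lemma mem_of_pgroup {ℓ : ℕ} [Fact ℓ.Prime] [Finite D] [M.Normal] (hM : ¬ ℓ ∣ M.index)
    {P : Subgroup D} (hP : IsPGroup ℓ P) : P ≤ M := by
  intro x hx
  obtain ⟨n, hn⟩ := hP ⟨x, hx⟩
  have hn' : x ^ ℓ ^ n = 1 := by
    have := congrArg (fun y : P => (y : D)) hn
    simpa using this
  have h1 : orderOf (QuotientGroup.mk x : D ⧸ M) ∣ ℓ ^ n := by
    apply orderOf_dvd_of_pow_eq_one
    rw [← QuotientGroup.mk_pow, hn']
    rfl
  have h2 : orderOf (QuotientGroup.mk x : D ⧸ M) ∣ M.index := by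
    rw [Subgroup.index_eq_card]
    exact orderOf_dvd_natCard _
  have h3 : Nat.Coprime (ℓ ^ n) M.index :=
    Nat.Coprime.pow_left n ((Nat.Prime.coprime_iff_not_dvd Fact.out).2 hM)
  have h4 : orderOf (QuotientGroup.mk x : D ⧸ M) = 1 :=
    Nat.dvd_one.1 (h3 ▸ Nat.dvd_gcd h1 h2)
  rw [orderOf_eq_one_iff] at h4
  exact (QuotientGroup.eq_one_iff x).1 h4

/-- normaliser of a subgroup of a finite group -/
lemma mem_norm [Finite D] {A : Subgroup D} {g : D} :
    g ∈ Subgroup.normalizer (A : Set D) ↔ ∀ x ∈ A, g * x * g⁻¹ ∈ A :=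
  ⟨fun h x hx => (Subgroup.mem_normalizer_iff.1 h x).1 hx,
    fun h => Subgroup.mem_normalizer_fintype fun n hn => h n hn⟩

/-- BAS -/
theorem bas (hSyl : SylStmt) (hPar : ParStmt) (hBru : BruhStmt) (_hLng : LngStmt) : BasStmt := by
  intro ℓ _ D _ _ M _ R hR
  have hSy := hSyl ℓ M R
  -- ℓ-subgroups
  have c1 : ∀ P : Subgroup D, IsPGroup ℓ P → P ≤ M ∧ ∃ g ∈ M, ∀ x ∈ P, g * x * g⁻¹ ∈ up R.U := by
    intro P hP
    have hPM := mem_of_pgroup hR.index hP
    refine ⟨hPM, ?_⟩
    have hQ : IsPGroup ℓ (P.subgroupOf M) := by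
      intro x
      obtain ⟨n, hn⟩ := hP ⟨((x : M) : D), Subgroup.mem_subgroupOf.1 x.2⟩
      refine ⟨n, ?_⟩
      apply Subtype.ext
      apply Subtype.ext
      have := congrArg (fun y : P => (y : D)) hn
      simpa using this
    obtain ⟨g, hg⟩ := hSy.2.2.2.2 _ hQ
    refine ⟨g, g.2, fun x hx => ?_⟩
    have h1 := hg ⟨x, hPM hx⟩ (Subgroup.mem_subgroupOf.2 hx)
    exact mem_up.2 h1
  have hUp : IsPGroup ℓ (up R.U) := by
    unfold up
    exact hSy.1.map M.subtype
  -- normalisers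
  have hnorm : ∀ J : Finset (Fin R.r), Subgroup.normalizer ((up (R.UJ J) : Subgroup D) : Set D) ⊓ M =
      up (R.PJ J) := by
    intro J
    ext x
    rw [Subgroup.mem_inf, mem_norm, mem_up']
    constructor
    · rintro ⟨h1, hx⟩
      refine ⟨hx, ((hPar ℓ M R J).1 _).2 fun y hy => ?_⟩
      have h2 := h1 _ (mem_up.2 hy)
      exact (mem_up (x := ⟨x, hx⟩ * y * ⟨x, hx⟩⁻¹)).1 h2
    · rintro ⟨hx, h1⟩
      refine ⟨fun y hy => ?_, hx⟩
      obtain ⟨hyM, hyA⟩ := mem_up'.1 hy
      have h2 := ((hPar ℓ M R J).1 _).1 h1 _ hyA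
      exact mem_up.2 h2
  have hlev : R.lev ∅ = ∅ := by
    ext b
    simp only [RGD.lev, Set.mem_ofPred_eq, Finset.coe_empty, Set.image_empty,
      Submodule.span_empty, Submodule.mem_bot, Set.mem_empty_iff_false, iff_false, not_and]
    exact fun hb => R.ne0 b hb
  have hUJ0 : R.UJ ∅ = R.U := by
    unfold RGD.UJ RGD.U
    rw [hlev, Set.sdiff_empty]
  have hPJ0 : R.PJ ∅ = R.B := (hBru ℓ M R).2.2.2.1
  have hAB : M ⊓ AD R = up R.B := by
    have := hnorm ∅
    rw [hUJ0, hPJ0, inf_comm] at this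
    exact this
  -- the index
  have hidx : ¬ ℓ ∣ (up R.U).index := by
    have h1 : (up R.U).relIndex M * M.index = (up R.U).index :=
      Subgroup.relIndex_mul_index (up_le R.U)
    have h2 : (up R.U).relIndex M = R.U.index := by
      unfold up
      have h3 : (R.U.map M.subtype).subgroupOf M = R.U := by
        ext x
        rw [Subgroup.mem_subgroupOf]
        exact mem_up
      rw [Subgroup.relIndex, h3]
    rw [← h1, h2]
    intro h
    rcases (Nat.Prime.dvd_mul Fact.out).1 h with h | h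
    · exact hSy.2.1 h
    · exact hR.index h
  refine ⟨c1, ?_, ?_, ?_, hnorm, hAB, hUp, hidx, ?_⟩
  · intro h
    have h1 : (Subgroup.center D).subgroupOf M ≤ R.T := fun z hz =>
      hR.zT z (Subgroup.mem_subgroupOf.1 hz)
    have h2 := Subgroup.card_dvd_of_le h1
    have h3 : Nat.card ((Subgroup.center D).subgroupOf M) = Nat.card (Subgroup.center D) :=
      Nat.card_congr (Subgroup.subgroupOfEquivOfLe hR.zM).toEquiv
    rw [h3] at h2
    exact R.cop (h.trans h2)
  · rw [eq_top_iff]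
    intro x _
    have h1 : IsPGroup ℓ ((up R.U).map (MulAut.conj x).toMonoidHom) := hUp.map _
    obtain ⟨-, g, hg, h2⟩ := c1 _ h1
    have h3 : g * x ∈ AD R := by
      unfold AD
      rw [mem_norm]
      intro u hu
      have h4 := h2 (x * u * x⁻¹) (Subgroup.mem_map.2 ⟨u, hu, rfl⟩)
      have h5 : g * x * u * (g * x)⁻¹ = g * (x * u * x⁻¹) * g⁻¹ := by group
      rw [h5]; exact h4
    have h6 : x = g⁻¹ * (g * x) := by group
    rw [h6]
    exact Subgroup.mul_mem_sup (M.inv_mem hg) h3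
  · intro x hx u
    have h1 := Subgroup.mem_normalizer_iff.1 hx (u : D)
    rw [mem_up] at h1
    rw [h1]
    have h2 : x * (u : D) * x⁻¹ = (((MulAut.conjNormal x : MulAut M) u : M) : D) := by
      rw [MulAut.conjNormal_apply]
    rw [h2, mem_up]
  · intro J hJ h
    have hk : ∃ k, k ∉ J := by
      by_contra hc
      push Not at hc
      exact hJ (Finset.eq_univ_iff_forall.2 hc)
    obtain ⟨k, hk⟩ := hk
    have h1 : R.a k ∈ R.pos \ R.lev J := by
      refine ⟨R.a_pos k, fun h2 => ?_⟩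
      have h3 := R.base.notMem_span_image (s := (J : Set (Fin R.r))) (x := k) (by simpa using hk)
      exact h3 h2.2
    have h2 : R.X (R.a k) ≤ R.UJ J := R.X_le_gp h1
    apply R.nt k
    rw [eq_bot_iff]
    intro x hx
    have h3 : (x : D) ∈ up (R.UJ J) := mem_up.2 (h2 hx)
    rw [h, Subgroup.mem_bot] at h3
    rw [Subgroup.mem_bot]
    exact Subtype.ext h3

end Pool.Agent.PP.X1.H53
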